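import Pool.Agent.E8helper28.LN.Ch5
import Pool.Agent.E8helper28.GB.All

/-!
# Chains of three primes `p, 2 p + t, 4 p + 3 t` for almost all odd `t`

The chains of the problem are `p, 2 p - 1, 4 p - 3, ...`, the orbits of `x ↦ 2 x + t` for `t = -1`. For
almost all odd `t`, `|t| ≤ N`, the number of primes `p` in `(N, 2 N]` for which the first two iterates
`2 p + t` and `2 (2 p + t) + t = 4 p + 3 t` are primes is the one predicted by Hardy and Littlewood. The
second and the third member of the chain are replaced by their sieve models with the bound of project GB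
for the uniformity of order three of the primes (`S_U3`), and one can weight the first member
arbitrarily.
-/

set_option autoImplicit false

namespace Pool.Agent.Results.MP_0fefc4_nt.ChainsOfThreeH28

open Finset

/-- `2 n + t` and `4 n + 3 t` are primes. -/
def Next (t : ℤ) (n : ℕ) : Prop := ∃ q r : ℕ, q.Prime ∧ r.Prime ∧ (q : ℤ) = 2 * n + t ∧ (r : ℤ) = 2 * q + t

open Classical in
/-- The number of primes `N < p ≤ 2 N` for which `2 p + t` and `4 p + 3 t` are primes. -/
noncomputable def chains (t : ℤ) (N : ℕ) : ℕ := ((Ioc N (2 * N)).filter (fun p => p.Prime ∧ Next t p)).card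

open Classical in
/-- The sum of `log p * log (2 p + t) * log (4 p + 3 t)` over the primes `N < p ≤ 2 N` for which
`2 p + t` and `4 p + 3 t` are primes. -/
noncomputable def weighted (t : ℤ) (N : ℕ) : ℝ :=
  ∑ p ∈ (Ioc N (2 * N)).filter (fun p => p.Prime ∧ Next t p),
    Real.log p * (Real.log (2 * p + t) * Real.log (4 * p + 3 * t))

/-- The partial products `(9 / 2) ∏_{3 < p ≤ z} p ^ 2 (p - 3) / (p - 1) ^ 3`. -/
noncomputable def Dz (z : ℕ) : ℝ :=
  9 / 2 * ∏ p ∈ (Icc 5 z).filter Nat.Prime, ((p : ℝ) ^ 2 * (p - 3) / (p - 1) ^ 3)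

/-- The product of `(p - 1) / (p - 3)` over the primes `p > 3` which divide `h`, times `2` if `3`
divides `h`. -/
noncomputable def G (h : ℕ) : ℝ :=
  (if 3 ∣ h then 2 else 1) * ∏ p ∈ h.primeFactors.filter (fun p => 3 < p), (((p : ℝ) - 1) / (p - 3))

/-- The formula of Hardy and Littlewood for the chains `p, 2 p + t, 4 p + 3 t`, `N < p ≤ 2 N`. -/
def Holds (D ε : ℝ) (U N : ℕ) (t : ℤ) : Prop :=
  |weighted t N - D * G t.natAbs * N| ≤ N / Real.log N ^ U ∧
  |(chains t N : ℝ) - D * G t.natAbs * (N / Real.log N ^ 3)| ≤ ε * (D * G t.natAbs * (N / Real.log N ^ 3))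

open Classical in
/-- The number of `N < n ≤ 2 N` in `M` for which `2 n + t` and `4 n + 3 t` are primes. -/
noncomputable def pairs (M : Set ℕ) (t : ℤ) (N : ℕ) : ℕ := ((Ioc N (2 * N)).filter (fun n => n ∈ M ∧ Next t n)).card

open Classical in
/-- The number of `N < n ≤ 2 N` in `M` for which `2 n + t` and `4 n + 3 t` have no prime factor
`p ≤ z`. -/
noncomputable def rough (z : ℕ) (M : Set ℕ) (t : ℤ) (N : ℕ) : ℕ :=
  ((Ioc N (2 * N)).filter (fun n => n ∈ M ∧ ∀ p : ℕ, p.Prime → p ≤ z →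
    ¬ (p : ℤ) ∣ 2 * (n : ℤ) + t ∧ ¬ (p : ℤ) ∣ 4 * (n : ℤ) + 3 * t)).card

/-- The product of `1 - 1 / p` over the primes `p ≤ z`. -/
noncomputable def V (z : ℕ) : ℝ := ∏ p ∈ (Icc 1 z).filter Nat.Prime, (1 - 1 / (p : ℝ))

/-- The prediction for the number of pairs: the number of pairs without small prime factors, times the
square of the probability `1 / (V(z) log N)` that such an integer is prime. -/
noncomputable def predicted (z : ℕ) (M : Set ℕ) (t : ℤ) (N : ℕ) : ℝ :=
  rough z M t N / (V z * Real.log N) ^ 2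

lemma next_iff (t : ℤ) (n : ℕ) : Next t n ↔ Pool.Agent.E8helper28.LN.Ch t n := by
  unfold Next Pool.Agent.E8helper28.LN.Ch
  constructor
  · rintro ⟨q, r, hq, hr, e1, e2⟩
    have h1 : (2 * (n : ℤ) + t).toNat = q := by omega
    have h2 : (4 * (n : ℤ) + 3 * t).toNat = r := by omega
    rw [h1, h2]
    exact ⟨hq, hr⟩
  · rintro ⟨h1, h2⟩
    have := h1.pos
    have := h2.pos
    exact ⟨_, _, h1, h2, by omega, by omega⟩

lemma chains_eq (t : ℤ) (N : ℕ) : chains t N = Pool.Agent.E8helper28.LN.Cc N t := by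
  unfold chains Pool.Agent.E8helper28.LN.Cc
  apply congrArg card
  ext p
  simp only [mem_filter, next_iff]

lemma weighted_eq (t : ℤ) (N : ℕ) (ht : t ∈ Icc (-(N : ℤ)) N) : weighted t N = Pool.Agent.E8helper28.LN.Wc N t := by
  classical
  unfold weighted Pool.Agent.E8helper28.LN.Wc
  rw [sum_filter]
  refine sum_congr rfl fun p hp => ?_
  obtain ⟨r1, r2, r3, r4⟩ := Pool.Agent.E8helper28.LN.ch_range N t ht p hp
  have hcast : ∀ x : ℤ, 0 ≤ x → ((x.toNat : ℕ) : ℝ) = (x : ℝ) := by
    intro x hx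
    exact_mod_cast Int.toNat_of_nonneg hx
  unfold Pool.Agent.H373R2.T7.lamP
  by_cases h1 : p.Prime
  · by_cases h2 : Next t p
    · rw [if_pos ⟨h1, h2⟩]
      rw [next_iff] at h2
      rw [Int.toNat_natCast, if_pos h1, if_pos h2.1, if_pos h2.2, hcast _ (by omega), hcast _ (by omega)]
      push_cast
      rfl
    · rw [if_neg (fun h => h2 h.2)]
      rw [next_iff] at h2
      unfold Pool.Agent.E8helper28.LN.Ch at h2
      rw [not_and_or] at h2
      rcases h2 with h2 | h2
      · rw [if_neg (c := (2 * (p : ℤ) + t).toNat.Prime) h2, zero_mul, mul_zero]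
      · rw [if_neg (c := (4 * (p : ℤ) + 3 * t).toNat.Prime) h2, mul_zero, mul_zero]
  · rw [if_neg (fun h => h1 h.1), Int.toNat_natCast, if_neg h1, zero_mul]

lemma pairs_eq (M : Set ℕ) (t : ℤ) (N : ℕ) : pairs M t N = Pool.Agent.E8helper28.LN.pairsC M N t := by
  classical
  unfold pairs Pool.Agent.E8helper28.LN.pairsC
  apply congrArg card
  ext p
  simp only [mem_filter, next_iff]

open Classical in
/-- Let `D` be the limit of `(9 / 2) ∏_{3 < p ≤ z} p ^ 2 (p - 3) / (p - 1) ^ 3`.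

* For all `U` and `ε > 0` there is an `N₀` such that, for `N ≥ N₀`, the formula of Hardy and Littlewood
  holds for the chains `p, 2 p + t, 4 p + 3 t` of primes with `N < p ≤ 2 N`, for all but at most
  `N / log ^ U N` of the odd integers `t` with `|t| ≤ N` (the problem is about `t = -1`).
* For all `U`, `K` and `ε > 0` there is an `E₀` such that, for `E ≥ E₀`, for large `N` and for every set
  `M` of natural numbers, the number of `n ∈ M`, `N < n ≤ 2 N`, for which `2 n + t` and `4 n + 3 t` are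
  primes is the predicted one (with `z = log ^ E N`), with an error of at most `ε` times the prediction
  and `N / log ^ K N`, for all but at most `N / log ^ U N` of the integers `t` with `|t| ≤ N`. -/
theorem result : ∃ D : ℝ, 0 < D ∧ Filter.Tendsto Dz Filter.atTop (nhds D) ∧
    (∀ (U : ℕ) (ε : ℝ), 0 < ε → ∃ N₀ : ℕ, ∀ N : ℕ, N₀ ≤ N →
      (((Icc (-(N : ℤ)) N).filter (fun t => Odd t ∧ ¬ Holds D ε U N t)).card : ℝ) ≤ N / Real.log N ^ U) ∧
    (∀ (U K : ℕ) (ε : ℝ), 0 < ε → ∃ E₀ : ℕ, ∀ E : ℕ, E₀ ≤ E → ∃ N₀ : ℕ, ∀ N : ℕ, N₀ ≤ N → ∀ M : Set ℕ,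
      (((Icc (-(N : ℤ)) N).filter (fun t =>
        ¬ |(pairs M t N : ℝ) - predicted ⌈Real.log N ^ E⌉₊ M t N| ≤
          ε * predicted ⌈Real.log N ^ E⌉₊ M t N + N / Real.log N ^ K)).card : ℝ) ≤ N / Real.log N ^ U) := by
  obtain ⟨D, hD0, hD⟩ := Pool.Agent.E8helper28.LN.const
  refine ⟨D, hD0, hD, fun U ε hε => ?_, fun U K ε hε => ?_⟩
  · obtain ⟨n1, h1⟩ := Pool.Agent.E8helper28.LN.chains Pool.Agent.E8helper28.GB.u3 D hD0 hD U ε hε
    refine ⟨n1 + 1, fun N hN => ?_⟩
    refine le_trans ?_ (h1 N (by omega))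
    rw [Nat.cast_le]
    apply card_le_card
    intro t ht
    rw [mem_filter] at ht ⊢
    refine ⟨ht.1, ht.2.1, fun h => ht.2.2 ?_⟩
    unfold Holds
    rw [weighted_eq t N ht.1, chains_eq]
    exact h
  · obtain ⟨E₀, h0⟩ := Pool.Agent.E8helper28.LN.relC Pool.Agent.E8helper28.GB.u3 U K ε hε
    refine ⟨E₀, fun E hE => ?_⟩
    obtain ⟨n1, h1⟩ := h0 E hE
    refine ⟨n1, fun N hN M => ?_⟩
    simp only [pairs_eq]
    exact h1 N hN M

end Pool.Agent.Results.MP_0fefc4_nt.ChainsOfThreeH28
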